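import Pool.Agent.W744.GL.Stm

set_option autoImplicit false

open Metric Set Filter Topology Complex
open scoped ComplexConjugate

namespace Pool.Agent.W803.GL.DISC

open Pool.Agent.Helper503.Gp (HI IsChar Gl bfac cay PH BlaOn BF mu)
open Pool.Agent.W744.GL

theorem cay_ball (z : ℂ) (hz : 0 < z.im) : cay z ∈ ball (0 : ℂ) 1 := by
  have hne : z + I ≠ 0 := by
    intro h
    have := congrArg Complex.im h
    simp at this
    linarith
  rw [mem_ball_zero_iff]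
  unfold cay
  rw [norm_div, div_lt_one (norm_pos_iff.2 hne)]
  rw [← sq_lt_sq₀ (norm_nonneg _) (norm_nonneg _), ← Complex.normSq_eq_norm_sq,
    ← Complex.normSq_eq_norm_sq, Complex.normSq_apply, Complex.normSq_apply]
  simp only [Complex.sub_re, Complex.sub_im, Complex.add_re, Complex.add_im, Complex.I_re,
    Complex.I_im]
  nlinarith

theorem cay_diff (z : ℂ) (hz : 0 < z.im) : DifferentiableAt ℂ cay z := by
  have hne : z + I ≠ 0 := by
    intro h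
    have := congrArg Complex.im h
    simp at this
    linarith
  unfold cay
  exact (differentiableAt_id.sub_const I).div (differentiableAt_id.add_const I) hne

theorem mv_im (z ξ : ℂ) : (mv z ξ).im = z.im * ξ.im := by
  unfold mv
  simp

theorem pt_eq (f : ℂ → ℂ) (hf : f ∈ HI) (z : ℂ) : pt z f = f (cay z) := by
  unfold pt
  rw [if_pos hf]

theorem mv_I (z : ℂ) : mv z I = z := by
  unfold mv
  exact Complex.re_add_im z

theorem main (h1 : S_ULCH) (h2 : S_AN) : S_DISC := by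
  intro U W f hf hmax ξ₀ hξ₀
  obtain ⟨hd, C, hC⟩ := hf
  have hf' : f ∈ HI := ⟨hd, C, hC⟩
  obtain ⟨h1a, h1b⟩ := h1
  have hDo : IsOpen {ξ : ℂ | 0 < ξ.im} := isOpen_lt continuous_const Complex.continuous_im
  -- the inner functions
  have him : ∀ (a : ℤ) (ζ : Up) (ξ : ℂ), 0 < ξ.im → 0 < ((a : ℂ) + mv ζ ξ).im := by
    intro a ζ ξ hξ
    rw [Complex.add_im, mv_im, Complex.intCast_im, zero_add]
    exact mul_pos ζ.2 hξ
  have hchar : ∀ (ζ : Up) (ξ : ℂ), 0 < ξ.im → IsChar (lam U (mv ζ ξ)) ∧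
      ∀ g, Tendsto (fun a : ℤ => pt ((a : ℂ) + mv ζ ξ) g) U (𝓝 (lam U (mv ζ ξ) g)) := by
    intro ζ ξ hξ
    exact h1b ℤ U (fun a : ℤ => pt ((a : ℂ) + mv ζ ξ)) (fun a => h1a _ (him a ζ ξ hξ))
  have hbd : ∀ (ζ : Up) (ξ : ℂ), 0 < ξ.im → ∀ a : ℤ, ‖pt ((a : ℂ) + mv ζ ξ) f‖ ≤ C := by
    intro ζ ξ hξ a
    rw [pt_eq f hf']
    exact hC _ (cay_ball _ (him a ζ ξ hξ))
  have hbd2 : ∀ (ζ : Up) (ξ : ℂ), 0 < ξ.im → ‖lam U (mv ζ ξ) f‖ ≤ C := by
    intro ζ ξ hξ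
    exact le_of_tendsto ((hchar ζ ξ hξ).2 f).norm (Filter.Eventually.of_forall (hbd ζ ξ hξ))
  have hdi : ∀ ζ : Up, DifferentiableOn ℂ (fun ξ : ℂ => lam U (mv ζ ξ) f) {ξ : ℂ | 0 < ξ.im} := by
    intro ζ
    refine h2 ℤ U (fun a ξ => pt ((a : ℂ) + mv ζ ξ) f) {ξ : ℂ | 0 < ξ.im} _ C hDo ?_ ?_ ?_
    · intro a ξ hξ
      refine DifferentiableAt.differentiableWithinAt ?_
      have e1 : (fun ξ : ℂ => pt ((a : ℂ) + mv ζ ξ) f) =
          fun ξ : ℂ => f (cay ((a : ℂ) + mv ζ ξ)) := by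
        funext ξ
        exact pt_eq f hf' _
      rw [e1]
      have e2 : DifferentiableAt ℂ (fun ξ : ℂ => (a : ℂ) + mv ζ ξ) ξ := by
        unfold mv
        fun_prop
      have e3 : DifferentiableAt ℂ f (cay ((a : ℂ) + mv ζ ξ)) :=
        (hd _ (cay_ball _ (him a ζ ξ hξ))).differentiableAt
          (isOpen_ball.mem_nhds (cay_ball _ (him a ζ ξ hξ)))
      have e4 : DifferentiableAt ℂ (fun ξ : ℂ => cay ((a : ℂ) + mv ζ ξ)) ξ :=
        DifferentiableAt.comp (g := cay) (f := fun ξ : ℂ => (a : ℂ) + mv ζ ξ) ξ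
          (cay_diff _ (him a ζ ξ hξ)) e2
      exact DifferentiableAt.comp (g := f) (f := fun ξ : ℂ => cay ((a : ℂ) + mv ζ ξ)) ξ e3 e4
    · intro a ξ hξ
      exact hbd ζ ξ hξ a
    · intro ξ hξ
      exact (hchar ζ ξ hξ).2 f
  -- the outer function
  have hG : DifferentiableOn ℂ (fun ξ : ℂ => ulim W (fun ζ : Up => lam U (mv ζ ξ)) f)
      {ξ : ℂ | 0 < ξ.im} := by
    refine h2 Up W (fun ζ ξ => lam U (mv ζ ξ) f) {ξ : ℂ | 0 < ξ.im} _ C hDo hdi ?_ ?_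
    · intro ζ ξ hξ
      exact hbd2 ζ ξ hξ
    · intro ξ hξ
      exact (h1b Up W (fun ζ : Up => lam U (mv ζ ξ)) (fun ζ => (hchar ζ ξ hξ).1)).2 f
  have hI : ulim W (fun ζ : Up => lam U (mv ζ I)) f = ulim W (fun ζ : Up => lam U ζ) f := by
    simp only [mv_I]
  have hE : DifferentiableOn ℂ
      (fun ξ : ℂ => Complex.exp (ulim W (fun ζ : Up => lam U (mv ζ ξ)) f)) {ξ : ℂ | 0 < ξ.im} :=
    hG.cexp
  have hpre : IsPreconnected {ξ : ℂ | 0 < ξ.im} := (convex_halfSpace_im_gt 0).isPreconnected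
  have hIm : I ∈ {ξ : ℂ | 0 < ξ.im} := by simp
  have hmaxon : IsMaxOn (norm ∘ fun ξ : ℂ =>
      Complex.exp (ulim W (fun ζ : Up => lam U (mv ζ ξ)) f)) {ξ : ℂ | 0 < ξ.im} I := by
    intro ξ hξ
    simp only [Set.mem_setOf_eq, Function.comp_apply, Complex.norm_exp]
    rw [hI]
    exact Real.exp_le_exp.2 (hmax ξ hξ)
  have h := Complex.norm_eqOn_of_isPreconnected_of_isMaxOn hpre hDo hE hIm hmaxon hξ₀
  simp only [Function.comp_apply, Function.const_apply, Complex.norm_exp] at h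
  rw [hI] at h
  exact Real.exp_injective h

end Pool.Agent.W803.GL.DISC
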