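import Pool.Agent.W12.GL.K1
import Pool.Agent.W280.GL.St

/-! GL-K2: Tonelli for double stars. -/

set_option autoImplicit false

namespace Pool.Agent.W803.GL.K2

open MeasureTheory Finset Pool.Agent.W845.GL Pool.Agent.W12.GL.K1 Pool.Agent.W280.GL
open scoped ENNReal

theorem prod_DStarE (W : ℝ → ℝ → ℝ≥0∞) (l m : ℕ) (x : Fin (l + m + 2) → ℝ) :
    ∏ e ∈ Eg (DStar l m), W (x e.1) (x e.2) =
      W (x 0) (x 1) * ∏ j : Fin (l + m), (if j.val < l then W (x 0) (x j.succ.succ)
        else W (x 1) (x j.succ.succ)) := by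
  rw [Eg_DStar, Finset.prod_insert, Finset.prod_image]
  · congr 1
    apply Finset.prod_congr rfl
    intro j _
    by_cases hj : j.val < l
    · rw [if_pos hj]
      show W (x (cen l m j)) (x j.succ.succ) = _
      unfold cen
      rw [if_pos hj]
    · rw [if_neg hj]
      show W (x (cen l m j)) (x j.succ.succ) = _
      unfold cen
      rw [if_neg hj]
  · intro i _ j _ h
    exact Fin.succ_injective _ (Fin.succ_injective _ (congrArg Prod.snd h))
  · intro h
    obtain ⟨j, _, hj⟩ := Finset.mem_image.mp h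
    have h2 : (j.succ.succ : Fin (l + m + 2)) = 1 := congrArg Prod.snd hj
    have h3 := congrArg Fin.val h2
    rw [Fin.val_one] at h3
    have h4 : (j.succ.succ : Fin (l + m + 2)).val = j.val + 1 + 1 := rfl
    omega

theorem pi_prodE (m : ℕ) (g : Fin m → ℝ → ℝ≥0∞) (hg : ∀ j, Measurable (g j)) :
    ∫⁻ z : Fin m → ℝ, ∏ j, g j (z j) ∂(Measure.pi fun _ : Fin m => mu) = ∏ j, ∫⁻ y, g j y ∂mu := by
  induction m with
  | zero => simp
  | succ m ih =>
    have hF : Measurable fun z : Fin (m + 1) → ℝ => ∏ j, g j (z j) :=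
      Finset.measurable_prod _ fun j _ => (hg j).comp (measurable_pi_apply j)
    rw [pi_split _ hF]
    have h1 : ∀ a : ℝ, ∫⁻ z : Fin m → ℝ, ∏ j, g j ((Fin.cons a z : Fin (m + 1) → ℝ) j)
        ∂(Measure.pi fun _ : Fin m => mu) = g 0 a * ∏ j : Fin m, ∫⁻ y, g j.succ y ∂mu := by
      intro a
      rw [← ih (fun j => g j.succ) (fun j => hg j.succ), ← lintegral_const_mul]
      · refine lintegral_congr fun z => ?_
        rw [Fin.prod_univ_succ]
        simp
      · exact Finset.measurable_prod _ fun j _ => (hg j.succ).comp (measurable_pi_apply j)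
    simp_rw [h1]
    rw [lintegral_mul_const _ (hg 0), Fin.prod_univ_succ]

theorem prod_twoE (l m : ℕ) (A B : ℝ≥0∞) :
    ∏ j : Fin (l + m), (if j.val < l then A else B) = A ^ l * B ^ m := by
  rw [Fin.prod_univ_add]
  congr 1
  · rw [Finset.prod_congr rfl (g := fun _ => A) (fun i _ => if_pos i.isLt)]
    rw [Finset.prod_const, Finset.card_univ, Fintype.card_fin]
  · rw [Finset.prod_congr rfl (g := fun _ => B) (fun i _ => if_neg (by show ¬ (l + i.val < l); omega))]
    rw [Finset.prod_const, Finset.card_univ, Fintype.card_fin]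

theorem k2 : S_K2 := by
  intro κ hκ l m
  rw [restrict_eq]
  have hm : Measurable fun p : ℝ × ℝ => ENNReal.ofReal (κ p.1 p.2) :=
    ENNReal.measurable_ofReal.comp hκ
  have h1 : ∀ x : Fin (l + m + 2) → ℝ, ∏ e ∈ Eg (DStar l m), ENNReal.ofReal (κ (x e.1) (x e.2)) =
      ENNReal.ofReal (κ (x 0) (x 1)) * ∏ j : Fin (l + m),
        (if j.val < l then ENNReal.ofReal (κ (x 0) (x j.succ.succ))
          else ENNReal.ofReal (κ (x 1) (x j.succ.succ))) := fun x =>
    prod_DStarE (fun a b => ENNReal.ofReal (κ a b)) l m x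
  simp_rw [h1]
  have hfac : ∀ j : Fin (l + m), Measurable fun x : Fin (l + m + 2) → ℝ =>
      (if j.val < l then ENNReal.ofReal (κ (x 0) (x j.succ.succ))
          else ENNReal.ofReal (κ (x 1) (x j.succ.succ))) := by
    intro j
    by_cases hj : j.val < l
    · simp only [if_pos hj]
      have h2 : Measurable fun x : Fin (l + m + 2) → ℝ => (x 0, x j.succ.succ) :=
        (measurable_pi_apply 0).prodMk (measurable_pi_apply _)
      exact hm.comp h2
    · simp only [if_neg hj]
      have h2 : Measurable fun x : Fin (l + m + 2) → ℝ => (x 1, x j.succ.succ) :=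
        (measurable_pi_apply 1).prodMk (measurable_pi_apply _)
      exact hm.comp h2
  have hF : Measurable fun x : Fin (l + m + 2) → ℝ =>
      ENNReal.ofReal (κ (x 0) (x 1)) * ∏ j : Fin (l + m),
        (if j.val < l then ENNReal.ofReal (κ (x 0) (x j.succ.succ))
          else ENNReal.ofReal (κ (x 1) (x j.succ.succ))) := by
    refine Measurable.mul ?_ (Finset.measurable_prod _ fun j _ => hfac j)
    have h2 : Measurable fun x : Fin (l + m + 2) → ℝ => (x 0, x 1) :=
      (measurable_pi_apply 0).prodMk (measurable_pi_apply 1)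
    exact hm.comp h2
  rw [pi_split _ hF]
  refine lintegral_congr fun a => ?_
  have hc : Measurable fun y : Fin (l + m + 1) → ℝ =>
      (Fin.cons a y : Fin (l + m + 2) → ℝ) := by
    refine measurable_pi_iff.mpr fun i => ?_
    refine Fin.cases ?_ (fun j => ?_) i
    · simp only [Fin.cons_zero]; exact measurable_const
    · simp only [Fin.cons_succ]; exact measurable_pi_apply j
  refine (pi_split _ (hF.comp hc)).trans ?_
  refine lintegral_congr fun b => ?_
  have hga : Measurable fun y => ENNReal.ofReal (κ a y) :=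
    hm.comp (measurable_const.prodMk measurable_id)
  have hgb : Measurable fun y => ENNReal.ofReal (κ b y) :=
    hm.comp (measurable_const.prodMk measurable_id)
  have hg : ∀ j : Fin (l + m), Measurable fun y : ℝ =>
      (if j.val < l then ENNReal.ofReal (κ a y) else ENNReal.ofReal (κ b y)) := by
    intro j
    by_cases hj : j.val < l
    · simp only [if_pos hj]; exact hga
    · simp only [if_neg hj]; exact hgb
  have h5 : ∀ z : Fin (l + m) → ℝ,
      ENNReal.ofReal (κ ((Fin.cons a (Fin.cons b z : Fin (l + m + 1) → ℝ) : Fin (l + m + 2) → ℝ) 0)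
        ((Fin.cons a (Fin.cons b z : Fin (l + m + 1) → ℝ) : Fin (l + m + 2) → ℝ) 1)) *
      ∏ j : Fin (l + m),
        (if j.val < l then ENNReal.ofReal (κ
            ((Fin.cons a (Fin.cons b z : Fin (l + m + 1) → ℝ) : Fin (l + m + 2) → ℝ) 0)
            ((Fin.cons a (Fin.cons b z : Fin (l + m + 1) → ℝ) : Fin (l + m + 2) → ℝ) j.succ.succ))
          else ENNReal.ofReal (κ
            ((Fin.cons a (Fin.cons b z : Fin (l + m + 1) → ℝ) : Fin (l + m + 2) → ℝ) 1)
            ((Fin.cons a (Fin.cons b z : Fin (l + m + 1) → ℝ) : Fin (l + m + 2) → ℝ) j.succ.succ)))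
      = ENNReal.ofReal (κ a b) * ∏ j : Fin (l + m),
        (if j.val < l then ENNReal.ofReal (κ a (z j)) else ENNReal.ofReal (κ b (z j))) := fun z => rfl
  have h6 : ∫⁻ z : Fin (l + m) → ℝ, ENNReal.ofReal (κ a b) * ∏ j : Fin (l + m),
        (if j.val < l then ENNReal.ofReal (κ a (z j)) else ENNReal.ofReal (κ b (z j)))
        ∂(Measure.pi fun _ : Fin (l + m) => mu)
      = ENNReal.ofReal (κ a b) * (∫⁻ z, ENNReal.ofReal (κ a z) ∂mu) ^ l
          * (∫⁻ z, ENNReal.ofReal (κ b z) ∂mu) ^ m := by
    have hmz : Measurable fun z : Fin (l + m) → ℝ => ∏ j : Fin (l + m),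
        (if j.val < l then ENNReal.ofReal (κ a (z j)) else ENNReal.ofReal (κ b (z j))) :=
      Finset.measurable_prod _ fun j _ => (hg j).comp (measurable_pi_apply j)
    rw [lintegral_const_mul _ hmz]
    rw [pi_prodE (l + m) (fun j y => if j.val < l then ENNReal.ofReal (κ a y)
      else ENNReal.ofReal (κ b y)) hg]
    rw [mul_assoc, ← prod_twoE]
    congr 1
    refine Finset.prod_congr rfl fun j _ => ?_
    by_cases hj : j.val < l
    · simp only [if_pos hj]
    · simp only [if_neg hj]
  rw [← h6]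
  exact lintegral_congr fun z => h5 z

end Pool.Agent.W803.GL.K2
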